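import Mathlib

/-!
# Time-periodic Lagrangians on the torus: Mather's alpha function, Peierls barrier, Aubry set
-/

set_option autoImplicit false

open MeasureTheory Filter
open scoped RealInnerProductSpace

namespace Pool.Agent.H33.AM

/-- `ℝⁿ` -/
abbrev E (n : ℕ) : Type := EuclideanSpace ℝ (Fin n)

/-- The torus `𝕋ⁿ = (ℝ/ℤ)ⁿ`. -/
abbrev Tor (n : ℕ) : Type := Fin n → UnitAddCircle

/-- The projection `ℝⁿ → 𝕋ⁿ`. -/
def pr {n : ℕ} (x : E n) : Tor n := fun i => ((x i : ℝ) : UnitAddCircle)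

/-- The phase space `𝕋ⁿ × ℝⁿ × 𝕋`, with points `(x, v, t)`. -/
abbrev Ph (n : ℕ) : Type := Tor n × E n × UnitAddCircle

/-- The representative in `[0, 1)` of a point of `ℝ/ℤ`. -/
noncomputable def rep (a : UnitAddCircle) : ℝ := (AddCircle.equivIco (1 : ℝ) 0 a : ℝ)

/-- The representative in `[0, 1)ⁿ` of a point of `𝕋ⁿ`. -/
noncomputable def repE {n : ℕ} (x : Tor n) : E n := WithLp.toLp 2 fun i => rep (x i)

variable {n : ℕ}

/-- Solutions `γ : ℝ → ℝⁿ` of the Euler-Lagrange equation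
`(d/dt) ∂L/∂v (γ, γ', t) = ∂L/∂x (γ, γ', t)`. -/
def IsEL (L : E n → E n → ℝ → ℝ) (γ : ℝ → E n) : Prop :=
  (∀ t, DifferentiableAt ℝ γ t) ∧
    ∀ t, HasDerivAt (fun s => gradient (fun v => L (γ s) v s) (deriv γ s))
      (gradient (fun x => L x (deriv γ t) t) (γ t)) t

/-- `Φ` is the Euler-Lagrange flow of `L` on `𝕋ⁿ × ℝⁿ × 𝕋` (in particular it is complete). -/
def IsELFlow (L : E n → E n → ℝ → ℝ) (Φ : ℝ → Ph n → Ph n) : Prop :=
  ∀ (x v : E n) (t : ℝ), ∃ γ : ℝ → E n, IsEL L γ ∧ γ t = x ∧ deriv γ t = v ∧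
    ∀ s : ℝ, Φ s (pr x, v, (t : UnitAddCircle)) =
      (pr (γ (t + s)), deriv γ (t + s), ((t + s : ℝ) : UnitAddCircle))

/-- `L(x, v, t) - c · v` as a function on the phase space. -/
noncomputable def Lc (L : E n → E n → ℝ → ℝ) (c : E n) (z : Ph n) : ℝ :=
  L (repE z.1) z.2.1 (rep z.2.2) - ⟪c, z.2.1⟫

/-- The values `∫ (L - c · v) dμ` for the probability measures `μ` on `𝕋ⁿ × ℝⁿ × 𝕋` which are
invariant under the Euler-Lagrange flow. -/
def actionValues (L : E n → E n → ℝ → ℝ) (c : E n) : Set ℝ :=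
  {a | ∃ Φ : ℝ → Ph n → Ph n, IsELFlow L Φ ∧ ∃ μ : Measure (Ph n), IsProbabilityMeasure μ ∧
    (∀ s, MeasurePreserving (Φ s) μ μ) ∧ Integrable (Lc L c) μ ∧ a = ∫ z, Lc L c z ∂μ}

/-- Mather's alpha function: `α_L(c) = - inf_μ ∫ (L - c · v) dμ`. -/
noncomputable def alpha (L : E n → E n → ℝ → ℝ) (c : E n) : ℝ := -sInf (actionValues L c)

/-- The actions `∫_0^k L_c(γ, γ', t) dt`, `L_c = L - c · v + α_L(c)`, of the absolutely continuous
curves `γ` on `[0, k]` from `x` to `y` in `𝕋ⁿ`. -/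
def curveActions (L : E n → E n → ℝ → ℝ) (c : E n) (k : ℕ) (x y : Tor n) : Set ℝ :=
  {a | ∃ γ : ℝ → E n, AbsolutelyContinuousOnInterval γ 0 k ∧ pr (γ 0) = x ∧ pr (γ k) = y ∧
    IntervalIntegrable (fun t => L (γ t) (deriv γ t) t - ⟪c, deriv γ t⟫ + alpha L c) volume 0 k ∧
    a = ∫ t in (0 : ℝ)..k, (L (γ t) (deriv γ t) t - ⟪c, deriv γ t⟫ + alpha L c)}

/-- The Peierls barrier `h_c(x, y) = liminf_{k → ∞} h_c^k(x, y)`, where `h_c^k(x, y)` is the infimum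
of the actions. -/
noncomputable def peierls (L : E n → E n → ℝ → ℝ) (c : E n) (x y : Tor n) : ℝ :=
  liminf (fun k : ℕ => sInf (curveActions L c k x y)) atTop

/-- The projected Aubry set. -/
def aubry (L : E n → E n → ℝ → ℝ) (c : E n) : Set (Tor n) := {x | peierls L c x x = 0}

end Pool.Agent.H33.AM
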